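import Mathlib
import Pool.Agent.MP_94842c_co.Cyc

/-! An upper bound for the number of cycles of a graph with `m` edges. -/

namespace Pool.Agent.Results.MP_94842c_co.CycleBound

/-- The cycles of `G`, each given by its set of edges. -/
def cycles {V : Type} (G : SimpleGraph V) : Set (Set (Sym2 V)) :=
  {S | ∃ (v : V) (p : G.Walk v v), p.IsCycle ∧ S = p.edgeSet}

theorem result : ∃ C : ℝ, ∀ (n : ℕ) (G : SimpleGraph (Fin n)),
    ((cycles G).ncard : ℝ) ≤ C * (6921 / 5000) ^ G.edgeSet.ncard := by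
  classical
  obtain ⟨C, hC⟩ := Pool.Agent.MP_94842c_co.poly_le
  refine ⟨C, fun n G => (Pool.Agent.MP_94842c_co.cycles_le G).trans ((hC _).trans_eq ?_)⟩
  rw [← Set.ncard_coe_finset, SimpleGraph.coe_edgeFinset]
  norm_num

end Pool.Agent.Results.MP_94842c_co.CycleBound
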