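import Mathlib
import Pool.Agent.MP_94842c_co.th.Triv
import Pool.Agent.MP_94842c_co.th.Low

/-! The largest number of cycles of a connected graph with `n` vertices and `m` edges. -/

set_option autoImplicit false

namespace Pool.Agent.Results.MP_94842c_co.EntringerSlaterRange

open Pool.Agent.MP_94842c_co.Lim Pool.Agent.MP_94842c_co.ES Pool.Agent.MP_94842c_co.Th

theorem result :
    (∀ ε : ℝ, 0 < ε → ∃ C : ℝ, ∀ (V : Type) [Finite V] (G : SimpleGraph V), G.Connected →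
      ((cycles G).ncard : ℝ) ≤
        min ((1 + ε) * 2 ^ ((G.edgeSet.ncard : ℤ) - (Nat.card V : ℤ)) + C)
          (2550 * (19 / 20) ^ (3 * (G.edgeSet.ncard : ℤ) - 5 * (Nat.card V : ℤ)) *
            2 ^ ((G.edgeSet.ncard : ℤ) - (Nat.card V : ℤ)))) ∧
    ∀ n m : ℕ, n + 3 ≤ m → 3 * m ≤ 5 * n → ∃ (V : Type) (_ : Finite V) (G : SimpleGraph V),
      G.Connected ∧ Nat.card V = n ∧ G.edgeSet.ncard = m ∧ 2 ^ (m - n) ≤ (cycles G).ncard ∧
      (2 * m ≤ 3 * n → ∀ v, (G.neighborSet v).ncard ≤ 3) := by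
  refine ⟨fun ε hε => ?_, fun n m h1 h2 => ?_⟩
  · obtain ⟨C, hC⟩ := mainA all_gen all_br1 row_br2 row_lin4 ε hε
    exact ⟨C, fun V _ G hG => le_min (hC V G hG) (upper_all G hG)⟩
  · rcases le_or_gt (2 * m) (3 * n) with h | h
    · obtain ⟨V, _, G, a, b, c, d, e⟩ := row_low (m - n) (3 * n - 2 * m) (by omega)
      exact ⟨V, inferInstance, G, a, by omega, by omega, e, fun _ => b⟩
    · obtain ⟨V, _, G, a, b, c, d⟩ := lower h1 h2
      exact ⟨V, inferInstance, G, a, b, c, d, fun h' => by omega⟩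

end Pool.Agent.Results.MP_94842c_co.EntringerSlaterRange
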