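import Mathlib
import Pool.Agent.MP_94842c_co.pw.Four
import Pool.Agent.MP_94842c_co.pw.LowPW

/-! The exact order of the number of cycles for graphs of pathwidth at most four. -/

set_option autoImplicit false

namespace Pool.Agent.Results.MP_94842c_co.PathwidthFour

open Pool.Agent.MP_94842c_co.Lim Pool.Agent.MP_94842c_co.PW Pool.Agent.MP_94842c_co.Low

theorem result : ∃ a C : ℝ, 0 < a ∧
    (∀ (V : Type) [Finite V] (G : SimpleGraph V), PathwidthLE G 4 →
      ((cycles G).ncard : ℝ) ≤ C * (2 + 2 * √2) ^ ((G.edgeSet.ncard : ℝ) / 5)) ∧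
    ∀ m : ℕ, 17 ≤ m → ∃ (V : Type) (_ : Finite V) (G : SimpleGraph V), PathwidthLE G 4 ∧
      G.edgeSet.ncard = m ∧ a * (2 + 2 * √2) ^ ((m : ℝ) / 5) ≤ ((cycles G).ncard : ℝ) := by
  have e : ∀ m : ℕ, (2 + 2 * √2) ^ ((m : ℝ) / 5) = kap ^ m := fun m => by
    rw [kap, ← Real.rpow_mul_natCast (by positivity)]
    congr 1
    ring
  obtain ⟨B, -, hB⟩ := upper cert kap1
  have k0 := kap_pos
  refine ⟨1 / kap ^ 21, B, by positivity, fun V _ G h => e _ ▸ hB V G h, fun m hm => ?_⟩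
  obtain ⟨G, h1, h2, h3⟩ := lowerPW (m := m) (k := (m - 17) / 5) (by omega)
  refine ⟨_, inferInstance, G, h1, h2, le_trans ?_ (Nat.cast_le.2 h3)⟩
  have h4 := le_T ((m - 17) / 5 + 1)
  rw [pow_succ', mul_le_mul_iff_right₀ (by positivity), ← kap5, ← pow_mul] at h4
  refine le_trans ?_ h4
  rw [e, one_div_mul_eq_div, div_le_iff₀ (by positivity), ← pow_add]
  exact pow_le_pow_right₀ kap1.le (by omega)

end Pool.Agent.Results.MP_94842c_co.PathwidthFour
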