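import Mathlib
import Pool.Agent.MP_94842c_co.h42.Low3

/-! The exact growth rate of the number of cycles for graphs with few short cycles. -/

set_option autoImplicit false

namespace Pool.Agent.Results.MP_94842c_co.TreeLike

open Pool.Agent.MP_94842c_co.Lim Pool.Agent.MP_94842c_co.Tree

theorem result :
    (∀ b : ℝ, 5 / 7 ^ (2 / 3 : ℝ) < b → ∃ (g : ℕ) (K : ℝ), ∀ (V : Type) [Finite V]
      (G : SimpleGraph V),
      ((cycles G).ncard : ℝ) ≤ b ^ G.edgeSet.ncard * K ^ (short G g).ncard) ∧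
    ∀ (g : ℕ) (b : ℝ), 0 ≤ b → b < 5 / 7 ^ (2 / 3 : ℝ) → ∃ m0 : ℕ, ∀ m : ℕ, m0 ≤ m →
      ∃ (V : Type) (_ : Finite V) (G : SimpleGraph V),
        G.edgeSet.ncard = m ∧ short G g = ∅ ∧ b ^ m ≤ ((cycles G).ncard : ℝ) := by
  rw [← gm_sq]
  refine ⟨fun b hb => upper hb, fun g b b0 hb => ?_⟩
  obtain ⟨m0, h⟩ := lower g b0 hb
  refine ⟨m0, fun m hm => ?_⟩
  obtain ⟨n, G, hG⟩ := h m hm
  exact ⟨_, inferInstance, G, hG⟩

end Pool.Agent.Results.MP_94842c_co.TreeLike
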